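import Pool.Agent.Helper61.FN.GoalsC
import Pool.Agent.Helper61.FN.Tools

/-!
# Project FN, packet C1A
-/

set_option autoImplicit false

namespace Pool.Agent.Helper34.FN

open Finset Pool.Agent.Helper61.FN

theorem c1a_aux {F k : Type} [Field F] [LinearOrder F] [IsStrictOrderedRing F] [Field k]
    [Algebra F k] {c x y z : k} (hc : c ≠ 0) (hx : x ≠ 0) (hy : y ≠ 0) (hz : z ≠ 0)
    (h : c * (x⁻¹ * (y * z⁻¹)) - c * (x⁻¹ * (y⁻¹ * z)) = 0) :
    ∃ s : F, s ≤ 1 ∧ y * z⁻¹ + y⁻¹ * z = 2 * algebraMap F k s := by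
  have h1 : c * x⁻¹ * (y * z⁻¹ - y⁻¹ * z) = 0 := by linear_combination h
  have h2 : y * z⁻¹ - y⁻¹ * z = 0 :=
    (mul_eq_zero.1 h1).resolve_left (mul_ne_zero hc (inv_ne_zero hx))
  have h3 : y ^ 2 = z ^ 2 := by
    field_simp at h2
    linear_combination h2
  rcases sq_eq_sq_iff_eq_or_eq_neg.1 h3 with h4 | h4
  · refine ⟨1, le_rfl, ?_⟩
    rw [h4, mul_inv_cancel₀ hz, inv_mul_cancel₀ hz, map_one]
    ring
  · refine ⟨-1, by linarith [one_pos (α := F)], ?_⟩
    rw [h4, inv_neg, neg_mul, neg_mul, mul_inv_cancel₀ hz, inv_mul_cancel₀ hz, map_neg, map_one]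
    ring

theorem goalC1A : G_C1A := by
  intro F k _ _ _ _ _ p q mu ep lam v M ξ h h0 h2 h3 h5 h1 h4 hlt
  have hp : 0 < p := lt_of_lt_of_le one_pos h.par.p1
  have hq : 0 < q := lt_of_lt_of_le one_pos h.par.q1
  have hmu := h.par.mu0
  have hph := h.par.ph0
  have hch := h.par.ch0
  have x0 := h.nrm.ne 0
  have g (j : Fin 20) : gr (mC j) v = 0 ↔ j ∈ ({0, 7, 8, 14, 16, 17, 19} : Finset (Fin 20)) := by
    rw [gr6]
    fin_cases j <;> simp [mC] <;> omega
  have key (e : Fin 6) : ∑ j ∈ ({0, 7, 8, 14, 16, 17, 19} : Finset (Fin 20)),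
      (mC j e : k) * (algebraMap F k (cC p q mu ep j) * mon ξ (mC j)) = 0 := by
    rw [← h.nrm.ld0 e, ← sum_subset (subset_univ ({0, 7, 8, 14, 16, 17, 19} : Finset (Fin 20)))]
    · refine sum_congr rfl fun j hj ↦ ?_
      rw [if_pos ((g j).2 hj)]
    · intro j _ hj
      rw [if_neg fun h' ↦ hj ((g j).1 h'), mul_zero]
  have k0 := key 0
  have k2 := key 2
  have k3 := key 3
  have k4 := key 4
  simp [mC, mon, Fin.prod_univ_succ, cC] at k0 k2 k3 k4
  have c4 : algebraMap F k (p * q * mu) ≠ 0 := am_ne (by positivity)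
  have c2 : algebraMap F k (p * q * (p + ep)) ≠ 0 := am_ne (by positivity)
  have c3 : algebraMap F k (p * q * (q + ep)) ≠ 0 := am_ne (by positivity)
  simp only [map_mul, map_add] at c4 c2 c3
  obtain ⟨s4, l4, e4⟩ := c1a_aux (F := F) c4 x0 (h.nrm.ne 4) (h.nrm.ne 5) (by linear_combination -k4)
  obtain ⟨s2, l2, e2⟩ := c1a_aux (F := F) c2 x0 (h.nrm.ne 2) (h.nrm.ne 1) (by linear_combination -k2)
  obtain ⟨s3, l3, e3⟩ := c1a_aux (F := F) c3 x0 (h.nrm.ne 3) (h.nrm.ne 1) (by linear_combination -k3)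
  have hz : algebraMap F k (2 * (p * q) * ((2 * p + 2 * q + mu + 2 * ep) - mu * s4 - (p + ep) * s2 -
      (q + ep) * s3)) = 0 := by
    refine (mul_eq_zero.1 ?_).resolve_left (inv_ne_zero x0)
    simp only [map_mul, map_add, map_sub, map_ofNat] at k0 ⊢
    linear_combination -k0 + (ξ 0)⁻¹ * (algebraMap F k p * algebraMap F k q * algebraMap F k mu) * e4 +
      (ξ 0)⁻¹ * (algebraMap F k p * algebraMap F k q * (algebraMap F k p + algebraMap F k ep)) * e2 +
      (ξ 0)⁻¹ * (algebraMap F k p * algebraMap F k q * (algebraMap F k q + algebraMap F k ep)) * e3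
  rw [map_eq_zero] at hz
  have hz' := (mul_eq_zero.1 hz).resolve_left (by positivity)
  have i4 : mu * s4 ≤ mu := by nlinarith
  have i2 : (p + ep) * s2 ≤ p + ep := by nlinarith
  have i3 : (q + ep) * s3 ≤ q + ep := by nlinarith
  linarith

end Pool.Agent.Helper34.FN
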